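import Pool.Agent.Lib_helper28.Perturb
import Pool.Agent.Lib_helper28.Transport
set_option autoImplicit false

namespace Pool.Agent.Results.MP_e1d67a_co.UniqueApery

open Pool.Agent.Lib_helper28

/-- A numerical semigroup: a submonoid of `ℕ` with finite complement. -/
def IsNumericalSemigroup (S : AddSubmonoid ℕ) : Prop := ((S : Set ℕ)ᶜ).Finite

/-- The minimal generating set of `S`: the nonzero elements of `S` that are not a sum of two
nonzero elements of `S`.  By `minGens_isLeast` below it is the least set generating `S`. -/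
def minGens (S : AddSubmonoid ℕ) : Set ℕ :=
  {n | n ∈ S ∧ n ≠ 0 ∧ ∀ a ∈ S, ∀ b ∈ S, a + b = n → a = 0 ∨ b = 0}

/-- Embedding dimension: the number of minimal generators. -/
noncomputable def embDim (S : AddSubmonoid ℕ) : ℕ := (minGens S).ncard

/-- Multiplicity: the least nonzero element. -/
noncomputable def mult (S : AddSubmonoid ℕ) : ℕ := sInf {n | n ∈ S ∧ n ≠ 0}

/-- The map sending an exponent vector `a` (indexed by the minimal generators) to
`∑ a_g g`; a factorization of `n` is an `a` with `factMap S a = n`. -/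
noncomputable def factMap (S : AddSubmonoid ℕ) : (minGens S →₀ ℕ) →+ ℕ where
  toFun a := a.sum fun g k => k * (g : ℕ)
  map_zero' := by simp
  map_add' a b := by
    rw [Finsupp.sum_add_index']
    · intro g; simp
    · intro g k l; ring

/-- `ρ` is a presentation of `S`: a set of pairs of exponent vectors which generates, as a
congruence on the free commutative monoid, the kernel congruence of `factMap S`. -/
def IsPresentation (S : AddSubmonoid ℕ) (ρ : Set ((minGens S →₀ ℕ) × (minGens S →₀ ℕ))) : Prop :=
  addConGen (fun a b => (a, b) ∈ ρ) = AddCon.ker (factMap S)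

/-- A minimal presentation: a presentation none of whose proper subsets is a presentation. -/
def IsMinimalPresentation (S : AddSubmonoid ℕ)
    (ρ : Set ((minGens S →₀ ℕ) × (minGens S →₀ ℕ))) : Prop :=
  IsPresentation S ρ ∧ ∀ σ, σ ⊂ ρ → ¬ IsPresentation S σ

/-- The Apery set with respect to the multiplicity: elements `n` of `S` with `n - m` not in `S`. -/
def apery (S : AddSubmonoid ℕ) : Set ℕ := {n | n ∈ S ∧ ¬ ∃ s ∈ S, s + mult S = n}

/-! ### Basic facts -/

theorem closure_minGens (S : AddSubmonoid ℕ) : AddSubmonoid.closure (minGens S) = S := by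
  apply le_antisymm
  · rw [AddSubmonoid.closure_le]
    intro n hn
    exact hn.1
  · intro n hn
    induction n using Nat.strong_induction_on with
    | _ n ih =>
      by_cases h0 : n = 0
      · rw [h0]; exact zero_mem _
      by_cases hat : n ∈ minGens S
      · exact AddSubmonoid.subset_closure hat
      · have : ∃ a ∈ S, ∃ b ∈ S, a + b = n ∧ a ≠ 0 ∧ b ≠ 0 := by
          by_contra hcon
          apply hat
          refine ⟨hn, h0, ?_⟩
          intro a ha b hb hab
          by_contra h
          push Not at h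
          exact hcon ⟨a, ha, b, hb, hab, h.1, h.2⟩
        obtain ⟨a, ha, b, hb, hab, ha0, hb0⟩ := this
        rw [← hab]
        exact add_mem (ih a (by omega) ha) (ih b (by omega) hb)

theorem minGens_subset {S : AddSubmonoid ℕ} {G : Set ℕ} (h : AddSubmonoid.closure G = S) :
    minGens S ⊆ G := by
  have key : ∀ x (_ : x ∈ AddSubmonoid.closure G), x ∈ minGens S → x ∈ G := by
    intro x hx
    induction hx using AddSubmonoid.closure_induction with
    | mem x hx => intro _; exact hx
    | zero => intro h; exact absurd rfl h.2.1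
    | add x y hx hy ihx ihy =>
      intro hxy
      rw [h] at hx hy
      rcases hxy.2.2 x hx y hy rfl with h0 | h0
      · rw [h0, zero_add] at hxy ⊢
        exact ihy hxy
      · rw [h0, add_zero] at hxy ⊢
        exact ihx hxy
  intro x hx
  exact key x (by rw [h]; exact hx.1) hx

/-- `minGens S` is the least generating set of `S`. -/
theorem minGens_isLeast (S : AddSubmonoid ℕ) :
    IsLeast {G : Set ℕ | AddSubmonoid.closure G = S} (minGens S) :=
  ⟨closure_minGens S, fun _ hG => minGens_subset hG⟩

theorem isMinimalPresentation_iff (S : AddSubmonoid ℕ)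
    (ρ : Set ((minGens S →₀ ℕ) × (minGens S →₀ ℕ))) :
    IsMinimalPresentation S ρ ↔ Minimal (IsPres (factMap S)) ρ := by
  constructor
  · rintro ⟨h1, h2⟩
    refine ⟨h1, ?_⟩
    intro σ hσ hle
    by_contra hcon
    exact h2 σ ⟨hle, hcon⟩ hσ
  · rintro ⟨h1, h2⟩
    refine ⟨h1, ?_⟩
    intro σ hσ hp
    exact hσ.2 (h2 hp hσ.1)

theorem factMap_pos (S : AddSubmonoid ℕ) (z : minGens S →₀ ℕ) (h : factMap S z = 0) : z = 0 := by
  ext g
  have h1 : ∑ g ∈ z.support, z g * (g : ℕ) = 0 := h
  rw [Finset.sum_eq_zero_iff] at h1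
  by_cases hg : g ∈ z.support
  · have h2 := h1 g hg
    rcases Nat.mul_eq_zero.1 h2 with h3 | h3
    · simpa using h3
    · exact absurd h3 g.2.2.1
  · simpa using hg

theorem factMap_single (S : AddSubmonoid ℕ) (g : minGens S) (k : ℕ) :
    factMap S (Finsupp.single g k) = k * (g : ℕ) := by
  change (Finsupp.single g k).sum (fun (g : minGens S) (k : ℕ) => k * (g : ℕ)) = _
  rw [Finsupp.sum_single_index]
  simp

section Mult

variable {S : AddSubmonoid ℕ} (hS : IsNumericalSemigroup S)
include hS

theorem exists_large : ∃ X, ∀ x, X ≤ x → x ∈ S := by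
  obtain ⟨X, hX⟩ := hS.bddAbove
  refine ⟨X + 1, ?_⟩
  intro x hx
  by_contra h
  have := hX h
  omega

theorem mult_spec : mult S ∈ S ∧ mult S ≠ 0 := by
  obtain ⟨X, hX⟩ := exists_large hS
  exact Nat.sInf_mem (s := {n | n ∈ S ∧ n ≠ 0}) ⟨X + 1, hX _ (by omega), by omega⟩

theorem mult_mem_minGens : mult S ∈ minGens S := by
  obtain ⟨h1, h2⟩ := mult_spec hS
  refine ⟨h1, h2, ?_⟩
  intro a ha b hb hab
  by_contra h
  push Not at h
  have h3 : mult S ≤ a := Nat.sInf_le ⟨ha, h.1⟩
  have : b ≠ 0 := h.2
  omega

end Mult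

theorem mult_le {S : AddSubmonoid ℕ} {x : ℕ} (h : x ∈ S) (h0 : x ≠ 0) : mult S ≤ x :=
  Nat.sInf_le ⟨h, h0⟩

/-- data of a generating tuple. -/
structure Gen (S : AddSubmonoid ℕ) (m : ℕ) {n : ℕ} (w : Fin n → ℕ) : Prop where
  inj : Function.Injective w
  mmem : m ∈ minGens S
  wmem : ∀ i, w i ∈ minGens S
  ne : ∀ i, w i ≠ m
  surj : ∀ g ∈ minGens S, g = m ∨ ∃ i, w i = g

theorem exists_gen {S : AddSubmonoid ℕ} (hS : IsNumericalSemigroup S) (he : 0 < embDim S) :
    ∃ (n : ℕ) (w : Fin n → ℕ), n + 1 = embDim S ∧ Gen S (mult S) w := by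
  classical
  have hfin : (minGens S).Finite := Set.finite_of_ncard_pos he
  have hm := mult_mem_minGens hS
  set A : Set ℕ := minGens S \ {mult S} with hA
  have hAfin : A.Finite := hfin.subset Set.sdiff_subset
  have hcard : A.ncard + 1 = embDim S := Set.ncard_sdiff_singleton_add_one hm hfin
  have := hAfin.to_subtype
  let e : A ≃ Fin (Nat.card A) := Finite.equivFin A
  refine ⟨Nat.card A, fun i => ((e.symm i : A) : ℕ), hcard, ?_⟩
  constructor
  · intro i j hij
    exact e.symm.injective (Subtype.ext hij)
  · exact hm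
  · intro i; exact (e.symm i).2.1
  · intro i; exact (e.symm i).2.2
  · intro g hg
    by_cases h : g = mult S
    · exact Or.inl h
    · right
      exact ⟨e ⟨g, hg, h⟩, by rw [Equiv.symm_apply_apply]⟩

section Equiv

variable {S : AddSubmonoid ℕ} {m n : ℕ} {w : Fin n → ℕ} (hg : Gen S m w)
include hg

/-- the comparison homomorphism. -/
noncomputable def toFact : ℕ × (Fin n → ℕ) →+ (minGens S →₀ ℕ) where
  toFun p := Finsupp.single ⟨m, hg.mmem⟩ p.1 + ∑ i, Finsupp.single ⟨w i, hg.wmem i⟩ (p.2 i)
  map_zero' := by simp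
  map_add' p q := by
    simp only [Prod.fst_add, Prod.snd_add, Pi.add_apply, Finsupp.single_add,
      Finset.sum_add_distrib]
    abel

theorem toFact_apply_m (p : ℕ × (Fin n → ℕ)) : toFact hg p ⟨m, hg.mmem⟩ = p.1 := by
  change (Finsupp.single (⟨m, hg.mmem⟩ : minGens S) p.1 +
    ∑ i, Finsupp.single (⟨w i, hg.wmem i⟩ : minGens S) (p.2 i)) ⟨m, hg.mmem⟩ = p.1
  rw [Finsupp.add_apply, Finsupp.single_eq_same, Finsupp.finsetSum_apply,
    Finset.sum_eq_zero, add_zero]
  intro i _
  rw [Finsupp.single_apply, if_neg]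
  intro h
  exact hg.ne i (congrArg Subtype.val h)

theorem toFact_apply_w (p : ℕ × (Fin n → ℕ)) (j : Fin n) :
    toFact hg p ⟨w j, hg.wmem j⟩ = p.2 j := by
  change (Finsupp.single (⟨m, hg.mmem⟩ : minGens S) p.1 +
    ∑ i, Finsupp.single (⟨w i, hg.wmem i⟩ : minGens S) (p.2 i)) ⟨w j, hg.wmem j⟩ = p.2 j
  rw [Finsupp.add_apply, Finsupp.finsetSum_apply, Finset.sum_eq_single j,
    Finsupp.single_eq_same, Finsupp.single_apply, if_neg, zero_add]
  · intro h
    exact hg.ne j (congrArg Subtype.val h).symm
  · intro i _ hij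
    rw [Finsupp.single_apply, if_neg]
    intro h
    exact hij (hg.inj (congrArg Subtype.val h))
  · simp

theorem toFact_bijective : Function.Bijective (toFact hg) := by
  constructor
  · intro p q h
    apply Prod.ext
    · rw [← toFact_apply_m hg p, ← toFact_apply_m hg q, h]
    · funext i
      rw [← toFact_apply_w hg p, ← toFact_apply_w hg q, h]
  · intro x
    refine ⟨(x ⟨m, hg.mmem⟩, fun i => x ⟨w i, hg.wmem i⟩), ?_⟩
    ext ⟨g, hgg⟩
    rcases hg.surj g hgg with rfl | ⟨i, rfl⟩
    · rw [toFact_apply_m]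
    · rw [toFact_apply_w]

theorem factMap_toFact (p : ℕ × (Fin n → ℕ)) : factMap S (toFact hg p) = psi m w p := by
  change factMap S (Finsupp.single ⟨m, hg.mmem⟩ p.1 +
    ∑ i, Finsupp.single ⟨w i, hg.wmem i⟩ (p.2 i)) = _
  rw [map_add, map_sum, factMap_single, psi_apply, wt_apply]
  congr 1
  apply Finset.sum_congr rfl
  intro i _
  rw [factMap_single]

/-- comparison isomorphism. -/
noncomputable def factEquiv : ℕ × (Fin n → ℕ) ≃+ (minGens S →₀ ℕ) :=
  AddEquiv.ofBijective (toFact hg) (toFact_bijective hg)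

theorem factMap_factEquiv (p : ℕ × (Fin n → ℕ)) : factMap S (factEquiv hg p) = psi m w p :=
  factMap_toFact hg p

theorem psi_factEquiv_symm (x : minGens S →₀ ℕ) :
    psi m w ((factEquiv hg).symm x) = factMap S x := by
  rw [← factMap_factEquiv hg, AddEquiv.apply_symm_apply]

theorem mem_iff_psi (x : ℕ) : x ∈ S ↔ ∃ p, psi m w p = x := by
  constructor
  · intro hx
    rw [← closure_minGens S] at hx
    induction hx using AddSubmonoid.closure_induction with
    | mem x hx =>
      rcases hg.surj x hx with rfl | ⟨i, rfl⟩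
      · exact ⟨(1, 0), by rw [psi_apply]; simp⟩
      · exact ⟨(0, Pi.single i 1), by rw [psi_apply, wt_single]; simp⟩
    | zero => exact ⟨0, map_zero _⟩
    | add x y hx hy ihx ihy =>
      obtain ⟨p, hp⟩ := ihx
      obtain ⟨q, hq⟩ := ihy
      exact ⟨p + q, by rw [map_add, hp, hq]⟩
  · rintro ⟨p, rfl⟩
    rw [psi_apply, wt_apply]
    apply add_mem
    · rw [← smul_eq_mul]
      exact nsmul_mem hg.mmem.1 _
    · apply sum_mem
      intro i _
      rw [← smul_eq_mul]
      exact nsmul_mem (hg.wmem i).1 _

end Equiv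

/-- From a numerical semigroup `T` to a generic one. -/
theorem perturb {T : AddSubmonoid ℕ} (hT : IsNumericalSemigroup T) (he : 0 < embDim T) :
    ∃ (S : AddSubmonoid ℕ) (η : ℕ), (IsNumericalSemigroup S ∧ embDim S = embDim T ∧
      mult S = mult T) ∧
      ((∃ ρ, IsMinimalPresentation S ρ) ∧ ∀ ρ, IsMinimalPresentation S ρ → ρ.encard = η) ∧
      (∀ x ∈ apery S, ∃! a : minGens S →₀ ℕ, factMap S a = x) ∧
      (∀ σ, IsMinimalPresentation T σ → σ.encard ≤ η) ∧
      η ≤ mult T * embDim T := by
  classical
  obtain ⟨n, w, hn, hg⟩ := exists_gen hT he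
  set m := mult T with hmdef
  obtain ⟨hmT, hm0⟩ := mult_spec hT
  have hm : 0 < m := Nat.pos_of_ne_zero hm0
  have hw : ∀ i, 0 < w i := fun i => Nat.pos_of_ne_zero (hg.wmem i).2.1
  obtain ⟨w', hw'm, hmod, H, hmin, hdist⟩ := exists_generic m hm w hw
  have hw' : ∀ i, 0 < w' i := fun i => by have := hw'm i; omega
  -- generators belong to the staircase
  have hsingle : ∀ i, (Pi.single i 1 : Fin n → ℕ) ∈ Osat m w' := by
    intro i
    obtain ⟨o, ho, hoc⟩ := H (Pi.single i 1)
    have hoc' : wt w o ≡ wt w (Pi.single i 1) [MOD m] :=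
      ((wt_modEq hmod o).symm.trans hoc).trans (wt_modEq hmod _)
    have hle : wt w o ≤ wt w (Pi.single i 1) := hmin o ho _ hoc'.symm
    obtain ⟨j, hj⟩ := (Nat.modEq_iff_dvd' hle).1 hoc'
    rw [wt_single, one_mul] at hj hle
    have hwi : w i = wt w o + m * j := by omega
    have hoT : wt w o ∈ T := (mem_iff_psi hg _).2 ⟨(0, o), by rw [psi_apply]; simp⟩
    have hmjT : m * j ∈ T := (mem_iff_psi hg _).2 ⟨(j, 0), by rw [psi_apply]; simp [mul_comm]⟩
    rcases (hg.wmem i).2.2 _ hoT _ hmjT hwi.symm with h0 | h0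
    · exfalso
      rw [h0, zero_add] at hwi
      cases j with
      | zero => have := hw i; omega
      | succ j =>
        have hjT : m * j ∈ T := (mem_iff_psi hg _).2 ⟨(j, 0), by rw [psi_apply]; simp [mul_comm]⟩
        rcases (hg.wmem i).2.2 m hmT (m * j) hjT (by rw [hwi]; ring) with h1 | h1
        · omega
        · apply hg.ne i
          rw [hwi, mul_add, h1]; ring
    · rw [h0, add_zero] at hwi
      have hone : o ≠ 0 := by
        intro h
        rw [h, map_zero] at hwi
        have := hw i
        omega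
      have : ∃ j, 0 < o j := by
        by_contra hh
        push Not at hh
        apply hone
        funext j
        have := hh j
        simp only [Pi.zero_apply]
        omega
      obtain ⟨j, hj⟩ := this
      have hsplit := sub_single_add hj
      have hwj : wt w (o - Pi.single j 1) + w j = w i := by
        rw [hwi]
        conv_rhs => rw [← hsplit]
        rw [map_add, wt_single, one_mul]
      have h1T : wt w (o - Pi.single j 1) ∈ T :=
        (mem_iff_psi hg _).2 ⟨(0, o - Pi.single j 1), by rw [psi_apply]; simp⟩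
      rcases (hg.wmem i).2.2 _ h1T _ (hg.wmem j).1 hwj with h1 | h1
      · have h2 := wt_ne_zero hw h1
        rw [h1, zero_add] at hwj
        have h3 := hg.inj hwj
        rw [h2, zero_add, h3] at hsplit
        rw [hsplit]; exact ho
      · have := hw j
        omega
  have hzero : (0 : Fin n → ℕ) ∈ Osat m w' := zero_mem_O hw'
  -- the new semigroup
  let S : AddSubmonoid ℕ := AddMonoidHom.mrange (psi m w')
  have hSmem : ∀ x, x ∈ S ↔ ∃ p, psi m w' p = x := fun x => AddMonoidHom.mem_mrange
  have hmS : m ∈ S := (hSmem m).2 ⟨(1, 0), by rw [psi_apply]; simp⟩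
  have hwS : ∀ i, w' i ∈ S := fun i =>
    (hSmem _).2 ⟨(0, Pi.single i 1), by rw [psi_apply, wt_single]; simp⟩
  have hSnum : IsNumericalSemigroup S := by
    obtain ⟨X, hX⟩ := exists_large hT
    have hb : ∀ r : ℕ, ∃ b : Fin n → ℕ, wt w' b ≡ r [MOD m] := by
      intro r
      have h1 : r + m * X ∈ T := hX _ (by nlinarith)
      obtain ⟨p, hp⟩ := (mem_iff_psi hg _).1 h1
      refine ⟨p.2, (wt_modEq hmod _).trans ?_⟩
      rw [psi_apply] at hp
      have h2 : (p.1 * m + wt w p.2) % m = (r + m * X) % m := by rw [hp]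
      rw [mul_comm p.1, Nat.mul_add_mod, Nat.add_mul_mod_self_left] at h2
      exact h2
    choose b hb using hb
    apply Set.Finite.subset (Set.finite_Iio ((Finset.range m).sup (fun r => wt w' (b r))))
    intro x hx
    by_contra hcon
    simp only [Set.mem_Iio, not_lt] at hcon
    apply hx
    have h1 : wt w' (b (x % m)) ≤ x := by
      refine le_trans ?_ hcon
      exact Finset.le_sup (f := fun r => wt w' (b r)) (Finset.mem_range.2 (Nat.mod_lt _ hm))
    have h2 : wt w' (b (x % m)) ≡ x [MOD m] := (hb (x % m)).trans (Nat.mod_modEq _ _)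
    obtain ⟨j, hj⟩ := (Nat.modEq_iff_dvd' h1).1 h2
    refine (hSmem x).2 ⟨(j, b (x % m)), ?_⟩
    rw [psi_apply, mul_comm]
    simp only
    omega
  have hge : ∀ x ∈ S, x ≠ 0 → m ≤ x := by
    intro x hx hx0
    obtain ⟨p, rfl⟩ := (hSmem x).1 hx
    rw [psi_apply] at hx0 ⊢
    by_cases h1 : p.1 = 0
    · have h2 : p.2 ≠ 0 := by
        intro h
        rw [h1, h, map_zero] at hx0
        omega
      have : ∃ j, 0 < p.2 j := by
        by_contra hh
        push Not at hh
        apply h2
        funext j
        have := hh j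
        simp only [Pi.zero_apply]
        omega
      obtain ⟨j, hj⟩ := this
      have h3 : wt w' (Pi.single j 1) ≤ wt w' p.2 := by
        apply wt_le_wt
        intro k
        by_cases hk : k = j
        · subst hk; rw [Pi.single_eq_same]; exact hj
        · rw [Pi.single_eq_of_ne hk]; exact Nat.zero_le _
      rw [wt_single, one_mul] at h3
      have := hw'm j
      omega
    · have : 1 * m ≤ p.1 * m := Nat.mul_le_mul_right _ (by omega)
      omega
  have hSmult : mult S = m := by
    apply le_antisymm
    · exact mult_le hmS hm0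
    · obtain ⟨h1, h2⟩ := mult_spec hSnum
      exact hge _ h1 h2
  -- uniqueness of factorizations of staircase elements
  have huniq : ∀ a ∈ Osat m w', ∀ p, psi m w' p = wt w' a → p = (0, a) := by
    intro a ha p hp
    rw [psi_apply] at hp
    have h1 : wt w' p.2 ≡ wt w' a [MOD m] := by
      have : (p.1 * m + wt w' p.2) % m = wt w' a % m := by rw [hp]
      rw [Nat.mul_comm p.1, Nat.mul_add_mod] at this
      exact this
    by_cases hya : p.2 = a
    · have h2 : p.1 * m = 0 := by rw [hya] at hp; omega
      have h3 : p.1 = 0 := by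
        rcases Nat.mul_eq_zero.1 h2 with h | h
        · exact h
        · omega
      exact Prod.ext h3 hya
    · have := ha p.2 h1 hya
      omega
  have hgS : Gen S m w' := by
    constructor
    · intro i j hij
      have h1 : (Pi.single i 1 : Fin n → ℕ) = Pi.single j 1 :=
        O_unique (hsingle i) (hsingle j) (by rw [wt_single, wt_single, hij])
      by_contra hne
      have h2 := congrFun h1 i
      rw [Pi.single_eq_same, Pi.single_eq_of_ne hne] at h2
      exact one_ne_zero h2
    · rw [← hSmult]; exact mult_mem_minGens hSnum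
    · intro i
      refine ⟨hwS i, (hw' i).ne', ?_⟩
      intro a ha b hb hab
      obtain ⟨p, rfl⟩ := (hSmem a).1 ha
      obtain ⟨q, rfl⟩ := (hSmem b).1 hb
      have h1 : p + q = (0, Pi.single i 1) := by
        apply huniq _ (hsingle i)
        rw [map_add, hab, wt_single, one_mul]
      have h2 : p.1 + q.1 = 0 := congrArg Prod.fst h1
      have h3 : p.2 + q.2 = Pi.single i 1 := congrArg Prod.snd h1
      have hp1 : p.1 = 0 := by omega
      have hq1 : q.1 = 0 := by omega
      have h4 : p.2 i + q.2 i = 1 := by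
        have := congrFun h3 i
        rw [Pi.single_eq_same] at this
        exact this
      have h5 : ∀ j, j ≠ i → p.2 j = 0 ∧ q.2 j = 0 := by
        intro j hj
        have h6 := congrFun h3 j
        rw [Pi.single_eq_of_ne hj] at h6
        have h7 : p.2 j + q.2 j = 0 := h6
        omega
      by_cases hpi : p.2 i = 0
      · left
        have : p.2 = 0 := by
          funext j
          by_cases hj : j = i
          · rw [hj]; exact hpi
          · exact (h5 j hj).1
        rw [psi_apply, hp1, this, map_zero, zero_mul, zero_add]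
      · right
        have : q.2 = 0 := by
          funext j
          by_cases hj : j = i
          · rw [hj]; simp only [Pi.zero_apply]; omega
          · exact (h5 j hj).2
        rw [psi_apply, hq1, this, map_zero, zero_mul, zero_add]
    · intro i; exact (hw'm i).ne'
    · intro g hgg
      have hcl : AddSubmonoid.closure (insert m (Set.range w')) = S := by
        apply le_antisymm
        · rw [AddSubmonoid.closure_le]
          rintro x (rfl | ⟨i, rfl⟩)
          · exact hmS
          · exact hwS i
        · intro x hx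
          obtain ⟨p, rfl⟩ := (hSmem x).1 hx
          rw [psi_apply, wt_apply]
          apply add_mem
          · rw [← smul_eq_mul]
            exact nsmul_mem (AddSubmonoid.subset_closure (Set.mem_insert _ _)) _
          · apply sum_mem
            intro i _
            rw [← smul_eq_mul]
            exact nsmul_mem (AddSubmonoid.subset_closure
              (Set.mem_insert_of_mem _ (Set.mem_range_self i))) _
      rcases minGens_subset hcl hgg with h | ⟨i, hi⟩
      · exact Or.inl h
      · exact Or.inr ⟨i, hi⟩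
  have hSemb : embDim S = embDim T := by
    rw [← hn]
    have hset : minGens S = insert m (Set.range w') := by
      apply Set.Subset.antisymm
      · intro g hgg
        rcases hgS.surj g hgg with h | ⟨i, hi⟩
        · exact Or.inl h
        · exact Or.inr ⟨i, hi⟩
      · rintro x (rfl | ⟨i, rfl⟩)
        · exact hgS.mmem
        · exact hgS.wmem i
    unfold embDim
    rw [hset, Set.ncard_insert_of_notMem, ← Set.image_univ,
      Set.ncard_image_of_injective _ hgS.inj, Set.ncard_univ]
    · simp
    · rintro ⟨i, hi⟩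
      exact hgS.ne i hi
  -- cardinalities
  have hCle := C_encard_le hm hw'
  have hCfin : (Cmin m w').Finite := by
    rw [← Set.encard_ne_top_iff]
    exact ne_top_of_le_ne_top (ENat.natCast_ne_top _) hCle
  set η := (Cmin m w').ncard with hη
  have hCη : (Cmin m w').encard = η := by rw [hη]; exact hCfin.cast_ncard_eq.symm
  -- upper bound for T
  have hup : ∀ σ, IsMinimalPresentation T σ → σ.encard ≤ η := by
    intro σ hσ
    rw [isMinimalPresentation_iff] at hσ
    have h1 := presT_isPres hm hmod H hmin
    have h2 := h1.map (factEquiv hg) (factMap_factEquiv hg)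
    refine (minimal_encard_le (factMap T) (factMap_pos T) σ _ hσ h2).trans ?_
    rw [← hCη]
    exact (Set.encard_image_le _ _).trans (presT_encard_le hm w w')
  -- bounds for S
  have hminS : ∀ a ∈ Osat m w', ∀ b, wt w' b ≡ wt w' a [MOD m] → wt w' a ≤ wt w' b := by
    intro a ha b hb
    by_cases hba : b = a
    · rw [hba]
    · exact (ha b hb hba).le
  have hpS := (presT_isPres hm (fun i => Nat.ModEq.refl _) H hminS).map (factEquiv hgS)
    (factMap_factEquiv hgS)
  have hpScard : (Prod.map (factEquiv hgS) (factEquiv hgS) '' presT m w' w').encard ≤ η := by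
    rw [← hCη]
    exact (Set.encard_image_le _ _).trans (presT_encard_le hm w' w')
  have hpSfin : (Prod.map (factEquiv hgS) (factEquiv hgS) '' presT m w' w').Finite := by
    rw [← Set.encard_ne_top_iff]
    exact ne_top_of_le_ne_top (ENat.natCast_ne_top _) hpScard
  refine ⟨S, η, ⟨hSnum, hSemb, hSmult⟩, ⟨?_, ?_⟩, ?_, hup, ?_⟩
  · obtain ⟨ρ, hρ⟩ := exists_minimal_of_finite _ hpSfin hpS
    exact ⟨ρ, (isMinimalPresentation_iff S ρ).2 hρ⟩
  · intro ρ hρ
    rw [isMinimalPresentation_iff] at hρ
    apply le_antisymm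
    · exact (minimal_encard_le (factMap S) (factMap_pos S) ρ _ hρ hpS).trans hpScard
    · have h1 : IsPres (factMap S) ρ := hρ.1
      have h2 := h1.map (factEquiv hgS).symm (psi_factEquiv_symm hgS)
      have h3 := C_encard_le_of_isPres hm hw' H hdist _ h2
      rw [hCη] at h3
      exact h3.trans (Set.encard_image_le _ _)
  · -- unique factorization
    rintro x ⟨hxS, hxA⟩
    rw [hSmult] at hxA
    obtain ⟨p, rfl⟩ := (hSmem x).1 hxS
    have hstd : ∀ q, psi m w' q = psi m w' p → ∃ a ∈ Osat m w', q = (0, a) := by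
      intro q hq
      have hq1 : q.1 = 0 := by
        by_contra hcon
        apply hxA
        refine ⟨psi m w' (q.1 - 1, q.2), (hSmem _).2 ⟨_, rfl⟩, ?_⟩
        rw [← hq, psi_apply, psi_apply]
        simp only
        obtain ⟨k, hk⟩ : ∃ k, q.1 = k + 1 := ⟨q.1 - 1, by omega⟩
        rw [hk]
        simp only [Nat.add_sub_cancel]
        ring
      refine ⟨q.2, ?_, Prod.ext hq1 rfl⟩
      obtain ⟨o, ho, hoc⟩ := H q.2
      by_cases hoq : q.2 = o
      · rw [hoq]; exact ho
      · exfalso
        have hlt := ho q.2 hoc.symm hoq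
        obtain ⟨j, hj⟩ := (Nat.modEq_iff_dvd' hlt.le).1 hoc
        apply hxA
        have hj0 : j ≠ 0 := by
          intro h
          rw [h, mul_zero] at hj
          omega
        obtain ⟨k, hk⟩ : ∃ k, j = k + 1 := ⟨j - 1, by omega⟩
        refine ⟨psi m w' (k, o), (hSmem _).2 ⟨_, rfl⟩, ?_⟩
        rw [← hq, psi_apply, psi_apply, hq1]
        simp only [zero_mul, zero_add]
        have : m * j = k * m + m := by rw [hk]; ring
        omega
    obtain ⟨a, ha, hpa⟩ := hstd p rfl
    refine ⟨factEquiv hgS p, factMap_factEquiv hgS p, ?_⟩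
    intro y hy
    have h1 : psi m w' ((factEquiv hgS).symm y) = psi m w' p := by
      rw [psi_factEquiv_symm]; exact hy
    have h2 := huniq a ha ((factEquiv hgS).symm y) (by
      rw [h1, hpa, psi_apply]; simp)
    rw [← hpa] at h2
    rw [← h2, AddEquiv.apply_symm_apply]
  · have h1 : (η : ℕ∞) ≤ (m * n : ℕ) := by rw [← hCη]; exact hCle
    have h2 : η ≤ m * n := by exact_mod_cast h1
    refine h2.trans (Nat.mul_le_mul_left _ ?_)
    omega

/-- existence of numerical semigroups with given `e, m`. -/
theorem exists_start (e m : ℕ) (h : (e = 1 ∧ m = 1) ∨ (2 ≤ e ∧ e ≤ m)) :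
    ∃ T : AddSubmonoid ℕ, IsNumericalSemigroup T ∧ embDim T = e ∧ mult T = m := by
  classical
  have hem : 1 ≤ e ∧ e ≤ m := by omega
  set G : Set ℕ := Set.Ico m (m + e) with hG
  set T := AddSubmonoid.closure G with hT
  have hGT : ∀ x ∈ G, x ∈ T := fun x hx => AddSubmonoid.subset_closure hx
  have hge : ∀ x ∈ T, x ≠ 0 → m ≤ x := by
    intro x hx
    induction hx using AddSubmonoid.closure_induction with
    | mem x hx => intro _; exact hx.1
    | zero => intro h; exact absurd rfl h
    | add x y hx hy ihx ihy =>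
      intro hxy
      by_cases hx0 : x = 0
      · have := ihy (by omega); omega
      · have := ihx hx0; omega
  have hmG : m ∈ G := ⟨le_refl _, by omega⟩
  have hnum : IsNumericalSemigroup T := by
    rcases h with ⟨rfl, rfl⟩ | ⟨h1, h2⟩
    · have : (T : Set ℕ)ᶜ = ∅ := by
        rw [Set.compl_empty_iff]
        ext x
        simp only [SetLike.mem_coe, Set.mem_univ, iff_true]
        have := nsmul_mem (hGT 1 hmG) x
        simpa using this
      unfold IsNumericalSemigroup
      rw [this]
      exact Set.finite_empty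
    · apply Set.Finite.subset (Set.finite_Iio (m * m))
      intro x hx
      by_contra hcon
      simp only [Set.mem_Iio, not_lt] at hcon
      apply hx
      have hm0 : 0 < m := by omega
      have h3 : m ≤ x / m := (Nat.le_div_iff_mul_le hm0).2 hcon
      have h4 : x % m < m := Nat.mod_lt _ hm0
      have h5 : x = (x / m - x % m) * m + (x % m) * (m + 1) := by
        have := Nat.div_add_mod x m
        obtain ⟨d, hd⟩ : ∃ d, x / m = x % m + d := ⟨x / m - x % m, by omega⟩
        rw [hd] at this ⊢
        rw [Nat.add_sub_cancel_left]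
        nlinarith
      change x ∈ T
      rw [h5]
      apply add_mem
      · rw [← smul_eq_mul]; exact nsmul_mem (hGT _ hmG) _
      · rw [← smul_eq_mul]; exact nsmul_mem (hGT _ ⟨by omega, by omega⟩) _
  have hmult : mult T = m := by
    apply le_antisymm
    · exact mult_le (hGT _ hmG) (by omega)
    · obtain ⟨h1, h2⟩ := mult_spec hnum
      exact hge _ h1 h2
  have hgens : minGens T = G := by
    apply Set.Subset.antisymm
    · exact minGens_subset rfl
    · intro x hx
      refine ⟨hGT x hx, by have := hx.1; omega, ?_⟩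
      intro a ha b hb hab
      by_contra hcon
      push Not at hcon
      have h1 := hge a ha hcon.1
      have h2 := hge b hb hcon.2
      have h3 := hx.2
      omega
  refine ⟨T, hnum, ?_, hmult⟩
  unfold embDim
  rw [hgens, hG, ← Finset.coe_Ico, Set.ncard_coe_finset, Nat.card_Ico]
  omega

/-- **Main theorem.**  For all `e, m` with `e = m = 1` or `2 ≤ e ≤ m` there is a numerical
semigroup `S` with embedding dimension `e` and multiplicity `m`, all of whose minimal
presentations have cardinality `η`, where `η` is at least the cardinality of any minimal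
presentation of any numerical semigroup with embedding dimension `e` and multiplicity `m`, and
such that every element of the Apery set of `S` has exactly one factorization. -/
theorem result (e m : ℕ) (h : (e = 1 ∧ m = 1) ∨ (2 ≤ e ∧ e ≤ m)) :
    ∃ (S : AddSubmonoid ℕ) (η : ℕ),
      (IsNumericalSemigroup S ∧ embDim S = e ∧ mult S = m) ∧
      ((∃ ρ, IsMinimalPresentation S ρ) ∧
        ∀ ρ, IsMinimalPresentation S ρ → ρ.encard = η) ∧
      (∀ T : AddSubmonoid ℕ, IsNumericalSemigroup T → embDim T = e → mult T = m →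
        ∀ σ, IsMinimalPresentation T σ → σ.encard ≤ η) ∧
      (∀ x ∈ apery S, ∃! a : minGens S →₀ ℕ, factMap S a = x) := by
  classical
  have he : 0 < e := by omega
  let P : ℕ → Prop := fun η => ∃ S : AddSubmonoid ℕ,
      (IsNumericalSemigroup S ∧ embDim S = e ∧ mult S = m) ∧
      ((∃ ρ, IsMinimalPresentation S ρ) ∧ ∀ ρ, IsMinimalPresentation S ρ → ρ.encard = η) ∧
      (∀ x ∈ apery S, ∃! a : minGens S →₀ ℕ, factMap S a = x)
  have hP : ∀ T : AddSubmonoid ℕ, IsNumericalSemigroup T → embDim T = e → mult T = m →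
      ∃ η, P η ∧ (∀ σ, IsMinimalPresentation T σ → σ.encard ≤ η) ∧ η ≤ m * e := by
    intro T h1 h2 h3
    obtain ⟨S, η, ⟨a1, a2, a3⟩, b, c, d, f⟩ := perturb h1 (by rw [h2]; exact he)
    rw [h2] at a2 f
    rw [h3] at a3 f
    exact ⟨η, ⟨S, ⟨a1, a2, a3⟩, b, c⟩, d, f⟩
  have hbound : ∀ η, P η → η ≤ m * e := by
    rintro η ⟨S, ⟨a1, a2, a3⟩, ⟨⟨ρ, hρ⟩, b⟩, c⟩
    obtain ⟨η', _, h2, h3⟩ := hP S a1 a2 a3
    have h4 := h2 ρ hρ
    rw [b ρ hρ] at h4
    have h5 : η ≤ η' := by exact_mod_cast h4
    exact h5.trans h3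
  have hne : ∃ η, P η := by
    obtain ⟨T, h1, h2, h3⟩ := exists_start e m h
    obtain ⟨η, h4, _⟩ := hP T h1 h2 h3
    exact ⟨η, h4⟩
  obtain ⟨η₀, hη₀⟩ := hne
  have hmax := Nat.findGreatest_spec (P := P) (hbound η₀ hη₀) hη₀
  obtain ⟨S, a, b, c⟩ := hmax
  refine ⟨S, Nat.findGreatest P (m * e), a, b, ?_, c⟩
  intro T h1 h2 h3 σ hσ
  obtain ⟨η, k1, k2, k3⟩ := hP T h1 h2 h3
  refine (k2 σ hσ).trans ?_
  exact_mod_cast Nat.le_findGreatest k3 k1

end Pool.Agent.Results.MP_e1d67a_co.UniqueApery
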